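import Pool.Agent.H272R3.MR.Main

set_option autoImplicit false

universe u

namespace Pool.Agent.Results.MP_e3b596_gt.MaximalRegularBounded

open Pool.Agent.H272R3.MR Cardinal Topology

/-- Every abelian group `G` of singular cardinality `κ` carries a topology that is maximal, regular
(even T3), translation invariant and `κ`-bounded. -/
theorem result {G : Type u} [AddCommGroup G] (hinf : ℵ₀ ≤ #G) (hsing : (#G).ord.cof < #G) :
    ∃ τ : TopologicalSpace G,
      MaximalTopology τ ∧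
      (@T3Space G τ ∧ ∀ x : G, ∀ U ∈ @nhds G τ x, ∃ V ∈ @nhds G τ x, IsClosed[τ] V ∧ V ⊆ U) ∧
      (∀ g : G, @Continuous G G τ τ (fun x => g + x)) ∧
      ∀ U : Set G, U ∈ @nhds G τ 0 → KappaLarge U := by
  obtain ⟨τ, h1, h2, h3, h4⟩ := main hinf hsing
  refine ⟨τ, h1, ⟨h2, fun x U hU => ?_⟩, h3, h4⟩
  obtain ⟨V, hV1, hV2, hV3⟩ := @exists_mem_nhds_isClosed_subset G τ h2.toRegularSpace x U hU
  exact ⟨V, hV1, hV2, hV3⟩

end Pool.Agent.Results.MP_e3b596_gt.MaximalRegularBounded
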